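import Pool.Agent.W206.YP.Asm

/-!
# The Zilber-Pink conjecture for `Y(1)^n` and the graphs of addition and multiplication

The conjecture for all subvarieties of all `Y(1)^n` is equivalent to its restriction to the
varieties `GV κ` in `Y(1)^(3k)`, the products of `k` surfaces in `Y(1)^3`, each of which is the
graph of the addition `z = x + y` or the graph of the multiplication `z = x * y` of the affine
line `Y(1)`.

The definitions (`IsVar`, `vdim`, `IsSpecial`, `IsComp`, `Atypical`, `FinMax`, `GV`) are in
`Pool/Agent/W206/YP/Stm.lean`, in the section `Subvarieties and special subvarieties, literally`.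
-/

set_option autoImplicit false

namespace Pool.Agent.Results.MP_130685_nt.AdditionMultiplication

open Pool.Agent.W206.YP

/-- The Zilber-Pink conjecture for `Y(1)^n` (every subvariety `V` of every `Y(1)^n` has only
finitely many maximal atypical subvarieties) holds if and only if, for every `k` and every choice
`κ` of addition or multiplication for each of `k` factors, the product `GV κ` in `Y(1)^(3k)` of
the graphs of these operations has only finitely many maximal atypical subvarieties. -/
theorem result :
    (∀ (n : ℕ) (V : Set (Fin n → ℂ)), IsVar V → {A | Maximal (Atypical V) A}.Finite) ↔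
      ∀ (k : ℕ) (κ : Fin k → Bool),
        {A | Maximal (Atypical
          {x : Fin k × Fin 3 → ℂ | ∀ g, x (g, 2) =
            if κ g then x (g, 0) + x (g, 1) else x (g, 0) * x (g, 1)}) A}.Finite :=
  final

end Pool.Agent.Results.MP_130685_nt.AdditionMultiplication
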