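import Pool.Agent.W282.ZP.Rat

/-!
# MP_130685_nt: Zilber-Pink for a positive proportion of pull-backs under maps `Y(1)^n ⇢ ℂ^m`

Let `V` be any irreducible subvariety of `ℂ^m` and let `D = (D_1, …, D_n)` be any multidegree. A
vector `c` of integers gives the rational map `F_c = (N_1 / M_1, …, N_m / M_m)` from `Y(1)^n = ℂ^n`
to `ℂ^m` whose numerators `N_j = ∑_e c(j, 0, e) x^e` and denominators `M_j = ∑_e c(j, 1, e) x^e`
are polynomials in all the variables, with all exponent vectors `e ≤ D`. For a positive proportion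
of the vectors `c` (in every box, in every residue class) the pull-back `F_c⁻¹(V)` has the
expected dimension and no atypical subvariety: every irreducible subset `A` of the intersection of
(the Zariski closure of) `F_c⁻¹(V)` with a special subvariety `Z` of `Y(1)^n` satisfies
`dim A ≤ dim Z - (m - dim V)`. The same holds for the larger class of the `Z` whose constant
coordinates are special, isogenous to an element of a given finite set `Γ` of complex numbers, or
integral over `ℤ[Γ]`.
-/

set_option autoImplicit false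

namespace Pool.Agent.Results.MP_130685_nt.RandomMaps

open H294ZP UpperHalfPlane MvPolynomial Pool.Agent.W282.ZP

/-- A special subvariety of `Y(1)^n = ℂ^n` of dimension `r` (with more constants allowed): a map
`cls` from the coordinates onto `r` classes (`none` for constant coordinates), an integral matrix
of positive determinant for every coordinate, and a constant for every coordinate, which is a
special point, isogenous to an element of `Γ`, or integral over `ℤ[Γ]`. -/
structure ModularDatum (Γ : Finset ℂ) (n r : ℕ) where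
  cls : Fin n → Option (Fin r)
  surj : ∀ l : Fin r, ∃ i, cls i = some l
  mat : Fin n → Matrix (Fin 2) (Fin 2) ℤ
  det_pos : ∀ i, 0 < (mat i).det
  const : Fin n → ℂ
  allowed : ∀ i, AllowedConst Γ (const i)

/-- The points of the special subvariety: the constant coordinates are the given constants, and the
coordinates of class `l` are `j (g_i z_l)`, with a free parameter `z_l` in the upper half plane. -/
def ModularDatum.locus {Γ : Finset ℂ} {n r : ℕ} (Z : ModularDatum Γ n r) : Set (Fin n → ℂ) :=
  {x | ∃ z : Fin r → ℍ, ∀ i, (Z.cls i = none → x i = Z.const i) ∧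
    ∀ l, Z.cls i = some l → ∃ w : ℍ,
      (w : ℂ) * (Z.mat i 1 0 * z l + Z.mat i 1 1) = Z.mat i 0 0 * z l + Z.mat i 0 1 ∧
      x i = jj w}

/-- The coefficient vectors of the rational maps `ℂ^n ⇢ ℂ^m` of multidegree `D`: the coefficient
of `x^e` in the numerator (`0`) and in the denominator (`1`) of the `j`-th component. -/
abbrev Coeffs (m : ℕ) {n : ℕ} (D : Fin n → ℕ) : Type := Fin m × Fin 2 × Expo D → ℤ

/-- The numerator of the `j`-th component at `x`. -/
def num {m n : ℕ} {D : Fin n → ℕ} (c : Coeffs m D) (j : Fin m) (x : Fin n → ℂ) : ℂ :=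
  ∑ e : Expo D, (c (j, 0, e) : ℂ) * ∏ i, x i ^ (e i : ℕ)

/-- The denominator of the `j`-th component at `x`. -/
def den {m n : ℕ} {D : Fin n → ℕ} (c : Coeffs m D) (j : Fin m) (x : Fin n → ℂ) : ℂ :=
  ∑ e : Expo D, (c (j, 1, e) : ℂ) * ∏ i, x i ^ (e i : ℕ)

/-- The pull-back of `V` under the rational map with coefficient vector `c`. -/
def pullback {m n : ℕ} {D : Fin n → ℕ} (c : Coeffs m D) (V : Set (Fin m → ℂ)) :
    Set (Fin n → ℂ) :=
  {x | (∀ j, den c j x ≠ 0) ∧ (fun j => num c j x / den c j x) ∈ V}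

/-- For every irreducible `V ⊂ ℂ^m`, every multidegree `D` and every finite set `Γ`, in every
residue class modulo any `Q₀` and in every box `H u + [-ε H, ε H]^N` there is a positive proportion
of integer vectors `c` for which every irreducible subset `A` of the Zariski closure of
`F_c⁻¹(V)` contained in a special subvariety `Z` has `dim A + m ≤ dim V + dim Z`. -/
theorem result (n m : ℕ) (V : Set (Fin m → ℂ)) (hV : (idealOf V).IsPrime) (D : Fin n → ℕ)
    (Γ : Finset ℂ) (Q₀ : ℕ) (hQ₀ : 0 < Q₀) (c₀ : Coeffs m D)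
    (u : Fin m × Fin 2 × Expo D → ℝ) (ε : ℝ) (hε : 0 < ε) :
    ∃ δ : ℝ, 0 < δ ∧ ∀ᶠ H : ℕ in Filter.atTop,
      δ * (H : ℝ) ^ (Fintype.card (Fin m × Fin 2 × Expo D)) ≤ Nat.card {c : Coeffs m D //
        (∀ a, |(c a : ℝ) - H * u a| ≤ ε * H) ∧ (∀ a, (Q₀ : ℤ) ∣ c a - c₀ a) ∧
        ∀ (r : ℕ) (Z : ModularDatum Γ n r) (A : Set (Fin n → ℂ)), A ⊆ zcl (pullback c V) →
          A ⊆ Z.locus → (idealOf A).IsPrime →
          zdim A + (m : Cardinal) ≤ zdim V + (r : Cardinal)} := by
  classical
  have hfin : Algebra.trdeg ℂ (MvPolynomial (Fin m) ℂ ⧸ idealOf V) < Cardinal.aleph0 :=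
    trdeg_lt_aleph0_of_finiteType
  obtain ⟨d, hd⟩ := Cardinal.lt_aleph0.1 hfin
  obtain ⟨Q, G, hQ, hmain⟩ := exists_class_rat D (idealOf V) hd Γ Q₀ hQ₀ c₀
  refine pos_proportion' Q hQ G _ (fun c hc => ?_) u ε hε
  obtain ⟨hc0, hkey⟩ := hmain c hc
  refine ⟨hc0, ?_⟩
  intro r Z A hAW hAZ hA
  obtain ⟨K, _, _, z, hz, T, hT, hdim⟩ := generic_point (idealOf A)
  have haev : ∀ (j : Fin m) (s : Fin 2) (y : Fin n → ℂ),
      aeval y (mev (fun e => c (j, s, e)) (X : Fin n → MvPolynomial (Fin n) ℂ)) =
        mev (fun e => c (j, s, e)) y := by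
    intro j s y
    have h := map_mev (aeval y : MvPolynomial (Fin n) ℂ →ₐ[ℂ] ℂ).toRingHom
      (fun e => c (j, s, e)) (X : Fin n → MvPolynomial (Fin n) ℂ)
    change aeval y _ = mev _ (fun i => aeval y (X i)) at h
    rw [h]
    simp only [aeval_X]
  have hpull : ∀ (J : Finset (Fin m)) (f : MvPolynomial J ℂ),
      rename (Subtype.val : J → Fin m) f ∈ idealOf V → aeval z (gpull
        (fun j => mev (fun e => c (j, 0, e)) (X : Fin n → MvPolynomial (Fin n) ℂ))
        (fun j => mev (fun e => c (j, 1, e)) (X : Fin n → MvPolynomial (Fin n) ℂ)) f) = 0 := by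
    intro J f hf
    rw [hz, mem_idealOf]
    intro x hx
    refine hAW hx _ (mem_idealOf.2 fun y hy => ?_)
    rw [← aeval_eq_eval]
    change aeval y (gpull _ _ f) = 0
    rw [aeval_gpull _ _ f y (fun j _ => by rw [haev]; exact hy.1 j)]
    simp only [haev]
    have h1 := mem_idealOf.1 hf _ hy.2
    rw [eval_rename] at h1
    rw [aeval_eq_eval]
    have h2 : eval (fun j : J => mev (fun e => c (j, 0, e)) y / mev (fun e => c (j, 1, e)) y) f
        = 0 := h1
    change _ * eval (fun j : J => mev (fun e => c (j, 0, e)) y / mev (fun e => c (j, 1, e)) y) f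
        = 0
    rw [h2, mul_zero]
  have hconst : ∀ i, Z.cls i = none → ∃ c : ℂ, IsIntegral (Algebra.adjoin ℤ (Γ : Set ℂ)) c ∧
      z i = algebraMap ℂ K c := by
    intro i hi
    refine ⟨Z.const i, (Z.allowed i).isIntegral, ?_⟩
    · have h1 : (X i - C (Z.const i) : MvPolynomial (Fin n) ℂ) ∈ idealOf A := by
        rw [mem_idealOf]
        intro x hx
        obtain ⟨w, hw⟩ := hAZ hx
        have h2 := (hw i).1 hi
        simp only [map_sub, eval_X, eval_C]
        exact sub_eq_zero.2 h2
      have h2 := (hz _).2 h1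
      rw [map_sub, aeval_X, aeval_C, sub_eq_zero] at h2
      exact h2
  have hrel : ∀ i i' l, Z.cls i = some l → Z.cls i' = some l → Polynomial.eval₂
      (Polynomial.aeval (z i) : Polynomial ℂ →ₐ[ℂ] K).toRingHom (z i')
        (Psi ((Z.mat i).det * (Z.mat i').det).toNat) = 0 := by
    intro i i' l hi hi'
    rw [← aeval_relPoly, hz, mem_idealOf]
    intro x hx
    obtain ⟨w, hw⟩ := hAZ hx
    obtain ⟨w1, h1, h2⟩ := (hw i).2 l hi
    obtain ⟨w2, h3, h4⟩ := (hw i').2 l hi'
    exact eval_relPoly_eq_zero (Z.det_pos i) (Z.det_pos i') h1 h3 h2 h4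
  have hN : ∀ i i', 0 < ((Z.mat i).det * (Z.mat i').det).toNat := by
    intro i i'
    have := mul_pos (Z.det_pos i) (Z.det_pos i')
    omega
  have hfinal := hkey K z hpull r Z.cls _ hN hconst hrel T hT
  have h1 : zdim A ≤ (T.card : Cardinal) := hdim
  calc zdim A + (m : Cardinal) ≤ (T.card : Cardinal) + (m : Cardinal) := by gcongr
    _ = ((T.card + m : ℕ) : Cardinal) := by push_cast; rfl
    _ ≤ ((r + d : ℕ) : Cardinal) := by exact_mod_cast hfinal
    _ = zdim V + (r : Cardinal) := by
      rw [zdim, hd]; push_cast; rw [add_comm]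

end Pool.Agent.Results.MP_130685_nt.RandomMaps
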